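import Mathlib

set_option autoImplicit false

namespace Pool.Agent.Results.MP_a8e993_al.FiniteOrderMonodromy

open Subgroup Subgroup.leftTransversals MulAction

/-- The transfer of a homomorphism that extends to the whole group is the power by the index. -/
theorem transfer_restrict {H : Type*} [Group H] (K : Subgroup H) [K.FiniteIndex]
    {A : Type*} [CommGroup A] (Φ : H →* A) (g : H) :
    MonoidHom.transfer (Φ.comp K.subtype) g = Φ g ^ K.index := by
  classical
  let _ := K.fintypeQuotientOfFiniteIndex
  let T : K.LeftTransversal := default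
  rw [MonoidHom.transfer_def (Φ.comp K.subtype) T g]
  have h1 : diff (Φ.comp K.subtype) T (g • T) =
      ∏ q : H ⧸ K, ((Φ (T.2.leftQuotientEquiv q : H))⁻¹ *
        (Φ g * Φ (T.2.leftQuotientEquiv (g⁻¹ • q) : H))) := by
    unfold diff
    refine Finset.prod_congr rfl (fun q _ => ?_)
    simp only [MonoidHom.comp_apply, Subgroup.coe_subtype, map_mul, map_inv]
    rw [smul_apply_eq_smul_apply_inv_smul, smul_eq_mul, map_mul]
  rw [h1, Finset.prod_mul_distrib, Finset.prod_mul_distrib]
  have h2 : ∏ q : H ⧸ K, Φ (T.2.leftQuotientEquiv (g⁻¹ • q) : H) =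
      ∏ q : H ⧸ K, Φ (T.2.leftQuotientEquiv q : H) :=
    Fintype.prod_equiv (MulAction.toPerm g⁻¹) _ _ (fun q => rfl)
  rw [h2, Finset.prod_inv_distrib, Finset.prod_const, Finset.card_univ,
    ← Nat.card_eq_fintype_card, ← Subgroup.index_eq_card]
  rw [mul_comm (Φ g ^ K.index) _, inv_mul_cancel_left]

theorem map_transfer {H : Type*} [Group H] (K : Subgroup H) [K.FiniteIndex]
    {A B : Type*} [CommGroup A] [CommGroup B] (ϕ : K →* A) (i : A →* B) (g : H) :
    i (MonoidHom.transfer ϕ g) = MonoidHom.transfer (i.comp ϕ) g := by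
  classical
  let T : K.LeftTransversal := default
  rw [MonoidHom.transfer_def ϕ T g, MonoidHom.transfer_def (i.comp ϕ) T g]
  unfold diff
  simp only [map_prod, MonoidHom.comp_apply]

/-- If a subgroup `K` of finite index has torsion-free abelianization, every torsion element of
`H^ab` is killed by the index of `K`. -/
theorem ab_torsion_of_index {H : Type*} [Group H] (K : Subgroup H) [K.FiniteIndex]
    (hK : ∀ (y : Abelianization K) (n : ℕ), 0 < n → y ^ n = 1 → y = 1)
    (x : Abelianization H) (n : ℕ) (hn : 0 < n) (hx : x ^ n = 1) : x ^ K.index = 1 := by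
  obtain ⟨h, rfl⟩ : ∃ h : H, Abelianization.of h = x := QuotientGroup.mk'_surjective (commutator H) x
  set V : H →* Abelianization K := MonoidHom.transfer (Abelianization.of : K →* Abelianization K)
    with hV
  have h1 : V h = 1 := by
    refine hK _ n hn ?_
    have h2 : Abelianization.lift V ((Abelianization.of h) ^ n) = 1 := by
      have : (Abelianization.of h) ^ n = 1 := hx
      rw [this, map_one]
    rw [map_pow, Abelianization.lift_apply_of] at h2
    exact h2
  have h3 : Abelianization.map K.subtype (V h) = 1 := by rw [h1, map_one]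
  rw [hV, map_transfer] at h3
  have h4 : (Abelianization.map K.subtype).comp (Abelianization.of : K →* Abelianization K) =
      (Abelianization.of : H →* Abelianization H).comp K.subtype := by
    ext k
    simp
  rw [h4, transfer_restrict] at h3
  exact h3

/-- The abelianization of a free group is torsion-free. -/
theorem free_ab_tf {L : Type*} [Group L] [IsFreeGroup L] (y : Abelianization L) (n : ℕ)
    (hn : 0 < n) (hy : y ^ n = 1) : y = 1 := by
  let e1 : Abelianization L ≃* Abelianization (FreeGroup (IsFreeGroup.Generators L)) :=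
    MulEquiv.abelianizationCongr (IsFreeGroup.toFreeGroup L)
  let e2 : FreeAbelianGroup (IsFreeGroup.Generators L) ≃+
    ((IsFreeGroup.Generators L) →₀ ℤ) := FreeAbelianGroup.equivFinsupp _
  let a : FreeAbelianGroup (IsFreeGroup.Generators L) := Additive.ofMul (e1 y)
  have h1 : n • a = 0 := by
    have : (e1 y) ^ n = 1 := by rw [← map_pow, hy, map_one]
    exact this
  have h2 : n • (e2 a) = 0 := by rw [← map_nsmul, h1, map_zero]
  have h3 : e2 a = 0 := by
    ext i
    have h4 := DFunLike.congr_fun h2 i
    simp only [Finsupp.smul_apply, Finsupp.coe_zero, Pi.zero_apply, smul_eq_zero] at h4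
    rcases h4 with h4 | h4
    · omega
    · simpa using h4
  have h5 : a = 0 := by
    have := e2.injective (h3.trans (map_zero e2).symm)
    exact this
  have h6 : e1 y = 1 := h5
  exact e1.injective (h6.trans (map_one e1).symm)


/-- Main lemma: `G` has a homomorphism `f` to `ℤ` with free kernel and a central element `z`
with `f z = m > 0`.  Then for every subgroup `H` of `G` every torsion element of `H^ab` is killed
by `m`. -/
theorem torsion_killed {G : Type*} [Group G] (f : G →* Multiplicative ℤ)
    (hfree : IsFreeGroup f.ker) (z : G) (hz : z ∈ Subgroup.center G) (m : ℕ) (hm : 0 < m)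
    (hfz : f z = Multiplicative.ofAdd (m : ℤ)) (H : Subgroup G)
    (x : Abelianization H) (n : ℕ) (hn : 0 < n) (hx : x ^ n = 1) : x ^ m = 1 := by
  classical
  -- the additive version of `f`
  set F : G → ℤ := fun g => Multiplicative.toAdd (f g) with hF
  have Fmul : ∀ a b : G, F (a * b) = F a + F b := fun a b => by simp [hF]
  have Fz : F z = m := by simp [hF, hfz]
  have Fzpow : ∀ k : ℤ, F (z ^ k) = k * m := fun k => by
    simp [hF, hfz, map_zpow]
  have zc : ∀ g : G, g * z = z * g := fun g => (Subgroup.mem_center_iff.mp hz g)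
  have zc' : ∀ (g : G) (k : ℤ), g * z ^ k = z ^ k * g := fun g k =>
    ((show Commute g z from zc g).zpow_right k)
  -- the reduction of `f` modulo `m`
  let χ : H →* Multiplicative (ZMod m) :=
    (AddMonoidHom.toMultiplicative (Int.castAddHom (ZMod m))).comp (f.comp H.subtype)
  have : NeZero m := ⟨by omega⟩
  have hχ : ∀ h : H, χ h = 1 ↔ (m : ℤ) ∣ F h := by
    intro h
    have : χ h = Multiplicative.ofAdd ((F h : ℤ) : ZMod m) := rfl
    rw [this]
    rw [← (ZMod.intCast_zmod_eq_zero_iff_dvd (F h) m)]
    exact Iff.rfl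
  set K : Subgroup H := χ.ker with hKdef
  have hKi : K.index ∣ m := by
    rw [hKdef, Subgroup.index_ker]
    have h1 : Nat.card χ.range ∣ Nat.card (Multiplicative (ZMod m)) :=
      Subgroup.card_subgroup_dvd_card _
    have h2 : Nat.card (Multiplicative (ZMod m)) = m := by
      rw [Nat.card_congr Multiplicative.toAdd, Nat.card_zmod]
    rwa [h2] at h1
  have : K.FiniteIndex := ⟨fun h0 => by rw [h0] at hKi; exact absurd (Nat.eq_zero_of_zero_dvd hKi) (by omega)⟩
  have hKm : ∀ k : K, (m : ℤ) ∣ F ((k : H) : G) := fun k => (hχ _).mp k.2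
  -- the projection of `K` to the free kernel
  have hpk : ∀ k : K, ((k : H) : G) * z ^ (-(F ((k : H) : G) / m)) ∈ f.ker := by
    intro k
    rw [MonoidHom.mem_ker]
    apply Multiplicative.toAdd.injective
    change F (((k : H) : G) * z ^ (-(F ((k : H) : G) / m))) = 0
    rw [Fmul, Fzpow]
    have := Int.ediv_mul_cancel (hKm k)
    rw [neg_mul, this]; ring
  let π : K →* f.ker :=
    { toFun := fun k => ⟨((k : H) : G) * z ^ (-(F ((k : H) : G) / m)), hpk k⟩
      map_one' := by
        apply Subtype.ext
        simp [hF]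
      map_mul' := by
        intro a b
        apply Subtype.ext
        simp only [Subgroup.coe_mul, Fmul]
        rw [Int.add_ediv_of_dvd_left (hKm a), neg_add, zpow_add]
        rw [mul_assoc, mul_assoc, ← mul_assoc ((b : H) : G), zc' ((b : H) : G)]
        group }
  have : IsFreeGroup f.ker := hfree
  -- torsion-freeness of `K^ab`
  have htf : ∀ (y : Abelianization K) (n : ℕ), 0 < n → y ^ n = 1 → y = 1 := by
    intro y n hn hy
    obtain ⟨k, rfl⟩ : ∃ k : K, Abelianization.of k = y :=
      QuotientGroup.mk'_surjective (commutator K) y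
    have hk : k ^ n ∈ commutator K := by
      rw [← map_pow] at hy
      exact (QuotientGroup.eq_one_iff _).mp hy
    -- image in the free group
    have h1 : (π.rangeRestrict k) ^ n ∈ commutator π.range := by
      rw [← map_pow]
      have : (commutator K).map π.rangeRestrict ≤ commutator π.range := by
        rw [map_commutator_eq]
        exact Subgroup.commutator_mono le_top le_top
      exact this (Subgroup.mem_map_of_mem _ hk)
    have h2 : Abelianization.of (π.rangeRestrict k) = 1 := by
      apply free_ab_tf _ n hn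
      rw [← map_pow]
      exact (QuotientGroup.eq_one_iff _).mpr h1
    have h3 : π.rangeRestrict k ∈ commutator π.range := (QuotientGroup.eq_one_iff _).mp h2
    have h4 : (commutator K).map π.rangeRestrict = commutator π.range := by
      rw [map_commutator_eq, MonoidHom.range_eq_top.mpr π.rangeRestrict_surjective]
      rfl
    rw [← h4] at h3
    obtain ⟨k', hk', hkk⟩ := h3
    have h5 : π k' = π k := congrArg Subtype.val hkk
    have h6 : ∀ u : K, u ∈ commutator K → F ((u : H) : G) = 0 := by
      intro u hu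
      have : commutator K ≤ (f.comp (H.subtype.comp K.subtype)).ker :=
        Abelianization.commutator_subset_ker _
      have h7 := this hu
      rw [MonoidHom.mem_ker] at h7
      change Multiplicative.toAdd (f ((u : H) : G)) = 0
      have h8 : f ((u : H) : G) = 1 := h7
      rw [h8]; rfl
    have h9 : F ((k' : H) : G) = 0 := h6 k' hk'
    have h10 : F (((k ^ n : K) : H) : G) = 0 := h6 _ hk
    have h11 : ∀ j : ℕ, F (((k ^ j : K) : H) : G) = j * F ((k : H) : G) := by
      intro j
      induction j with
      | zero => simp [hF]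
      | succ j ih =>
        rw [pow_succ, Subgroup.coe_mul, Subgroup.coe_mul, Fmul, ih]
        push_cast; ring
    rw [h11 n] at h10
    have h12 : F ((k : H) : G) = 0 := by
      rcases mul_eq_zero.mp h10 with h | h
      · exfalso; have : n = 0 := by exact_mod_cast h
        omega
      · exact h
    have h13 : k' = k := by
      apply Subtype.ext
      apply Subtype.ext
      have := congrArg Subtype.val h5
      change ((k' : H) : G) * z ^ (-(F ((k' : H) : G) / m)) =
        ((k : H) : G) * z ^ (-(F ((k : H) : G) / m)) at this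
      rw [h9, h12] at this
      simpa using this
    rw [← h13]
    exact (QuotientGroup.eq_one_iff _).mpr hk'
  have hfin := ab_torsion_of_index K htf x n hn hx
  obtain ⟨c, hc⟩ := hKi
  rw [hc, pow_mul, hfin, one_pow]


/-- An element of a free group of rank at least two commuting with the basis is trivial. -/
theorem free_center {α : Type*} [Nontrivial α] (u : FreeGroup α)
    (h : ∀ c : α, FreeGroup.of c * u = u * FreeGroup.of c) : u = 1 := by
  classical
  by_contra hu
  have hne : u.toWord ≠ [] := fun h0 => hu (FreeGroup.toWord_eq_nil_iff.mp h0)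
  obtain ⟨⟨x, ε⟩, L, hL⟩ := List.exists_cons_of_ne_nil hne
  obtain ⟨c, hc⟩ := exists_ne x
  have h1 : (FreeGroup.of c * u).toWord = (c, true) :: u.toWord := by
    rw [FreeGroup.toWord_mul, FreeGroup.toWord_of, List.singleton_append, FreeGroup.reduce.cons,
      FreeGroup.reduce_toWord, hL]
    simp [hc]
  have h2 := FreeGroup.toWord_mul_sublist u (FreeGroup.of c)
  rw [← h c, h1, FreeGroup.toWord_of] at h2
  have h3 := h2.eq_of_length (by simp)
  rw [hL] at h3
  simp at h3
  exact hc h3.1.1

/-- Finite-rank version of the main lemma in the language of monodromies. -/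
theorem monodromy_torsion {G : Type*} [Group G] (N : Subgroup G) [N.Normal] (n : ℕ)
    (eN : N ≃* FreeGroup (Fin n)) (e : G ⧸ N ≃* Multiplicative ℤ) (t : G)
    (ht : e (t : G ⧸ N) = Multiplicative.ofAdd 1) (m : ℕ) (hm : 0 < m) (w : G) (hw : w ∈ N)
    (hconj : ∀ x ∈ N, t ^ m * x * (t ^ m)⁻¹ = w * x * w⁻¹) (H : Subgroup G)
    (x : Abelianization H) (k : ℕ) (hk : 0 < k) (hx : x ^ k = 1) : x ^ m = 1 := by
  classical
  let f : G →* Multiplicative ℤ := e.toMonoidHom.comp (QuotientGroup.mk' N)
  have hf : ∀ g : G, f g = e (g : G ⧸ N) := fun g => rfl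
  have hker : f.ker = N := by
    ext g
    rw [MonoidHom.mem_ker, hf]
    constructor
    · intro h
      have h1 : (g : G ⧸ N) = 1 := e.injective (h.trans (map_one e).symm)
      exact (QuotientGroup.eq_one_iff g).mp h1
    · intro h
      rw [(QuotientGroup.eq_one_iff g).mpr h, map_one]
  have hfree : IsFreeGroup f.ker := by
    rw [hker]
    exact IsFreeGroup.ofMulEquiv eN.symm
  have hft : f t = Multiplicative.ofAdd 1 := ht
  have hfw : f w = 1 := by
    have : w ∈ f.ker := by rw [hker]; exact hw
    exact this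
  -- an element commuting with `N` and with `t` is central
  have hcen : ∀ z : G, (∀ x ∈ N, x * z = z * x) → t * z = z * t → z ∈ Subgroup.center G := by
    intro z hz1 hz2
    rw [Subgroup.mem_center_iff]
    intro g
    set j : ℤ := Multiplicative.toAdd (f g) with hj
    have h1 : g * t ^ (-j) ∈ N := by
      rw [← hker, MonoidHom.mem_ker, map_mul, map_zpow, hft]
      apply Multiplicative.toAdd.injective
      simp [hj]
    have h2 : g = (g * t ^ (-j)) * t ^ j := by group
    have h3 : t ^ j * z = z * t ^ j := ((show Commute t z from hz2).zpow_left j)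
    calc g * z = (g * t ^ (-j)) * (t ^ j * z) := by group
      _ = (g * t ^ (-j)) * z * t ^ j := by rw [h3]; group
      _ = z * (g * t ^ (-j)) * t ^ j := by rw [hz1 _ h1]
      _ = z * g := by group
  -- the centre of `N`
  by_cases hab : ∀ x ∈ N, ∀ y ∈ N, x * y = y * x
  · refine torsion_killed f hfree (t ^ m) (hcen _ ?_ ?_) m hm ?_ H x k hk hx
    · intro y hy
      have h1 := hconj y hy
      rw [hab w hw y hy, mul_inv_cancel_right] at h1
      have h2 : t ^ m * y = y * t ^ m := by
        calc t ^ m * y = t ^ m * y * (t ^ m)⁻¹ * t ^ m := by group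
          _ = y * t ^ m := by rw [h1]
      exact h2.symm
    · rw [← pow_succ, ← pow_succ']
    · rw [map_pow, hft]
      apply Multiplicative.toAdd.injective
      simp
  · -- rank at least two
    have hn : Nontrivial (Fin n) := by
      by_contra hnt
      rw [not_nontrivial_iff_subsingleton] at hnt
      apply hab
      intro x hx y hy
      have hcomm : ∀ a b : FreeGroup (Fin n), a * b = b * a := by
        rcases isEmpty_or_nonempty (Fin n) with he | he
        · intro a b
          exact Subsingleton.elim _ _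
        · obtain ⟨i⟩ := he
          have : Unique (Fin n) := ⟨⟨i⟩, fun j => Subsingleton.elim _ _⟩
          intro a b
          exact (IsCyclic.commGroup (α := FreeGroup (Fin n))).mul_comm a b
      have h1 := hcomm (eN ⟨x, hx⟩) (eN ⟨y, hy⟩)
      rw [← map_mul, ← map_mul] at h1
      exact congrArg Subtype.val (eN.injective h1)
    set z : G := w⁻¹ * t ^ m with hz
    have hzN : ∀ x ∈ N, x * z = z * x := by
      intro y hy
      have h1 := hconj y hy
      have h2 : t ^ m * y = w * y * w⁻¹ * t ^ m := by
        rw [← h1]; group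
      calc y * z = w⁻¹ * (w * y * w⁻¹ * t ^ m) := by rw [hz]; group
        _ = w⁻¹ * (t ^ m * y) := by rw [h2]
        _ = z * y := by rw [hz]; group
    -- the commutator of `t` and `z` lies in `N` and centralizes `N`
    have hcomm : t * z * t⁻¹ * z⁻¹ = 1 := by
      have hmem : t * z * t⁻¹ * z⁻¹ ∈ N := by
        rw [← hker, MonoidHom.mem_ker]
        simp only [map_mul, map_inv]
        rw [mul_comm (f t) (f z)]
        group
      have hcz : ∀ x ∈ N, x * (t * z * t⁻¹ * z⁻¹) = (t * z * t⁻¹ * z⁻¹) * x := by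
        intro y hy
        have h1 : t⁻¹ * y * t ∈ N := by
          have := ‹N.Normal›.conj_mem y hy t⁻¹
          simpa using this
        have h2 : y * (t * z * t⁻¹) = (t * z * t⁻¹) * y := by
          calc y * (t * z * t⁻¹) = t * ((t⁻¹ * y * t) * z) * t⁻¹ := by group
            _ = t * (z * (t⁻¹ * y * t)) * t⁻¹ := by rw [hzN _ h1]
            _ = (t * z * t⁻¹) * y := by group
        have h3 : y * z⁻¹ = z⁻¹ * y := by
          have h4 := hzN y hy
          calc y * z⁻¹ = z⁻¹ * (z * y) * z⁻¹ := by group
            _ = z⁻¹ * (y * z) * z⁻¹ := by rw [h4]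
            _ = z⁻¹ * y := by group
        calc y * (t * z * t⁻¹ * z⁻¹) = (y * (t * z * t⁻¹)) * z⁻¹ := by group
          _ = ((t * z * t⁻¹) * y) * z⁻¹ := by rw [h2]
          _ = (t * z * t⁻¹) * (y * z⁻¹) := by group
          _ = (t * z * t⁻¹) * (z⁻¹ * y) := by rw [h3]
          _ = (t * z * t⁻¹ * z⁻¹) * y := by group
      have h5 : eN ⟨_, hmem⟩ = 1 := by
        apply free_center
        intro c
        obtain ⟨y, hy⟩ := eN.surjective (FreeGroup.of c)
        rw [← hy, ← map_mul, ← map_mul]
        congr 1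
        exact Subtype.ext (hcz y y.2)
      have h6 : (⟨_, hmem⟩ : N) = 1 := eN.injective (h5.trans (map_one eN).symm)
      exact congrArg Subtype.val h6
    have htz : t * z = z * t := by
      calc t * z = (t * z * t⁻¹ * z⁻¹) * z * t := by group
        _ = z * t := by rw [hcomm, one_mul]
    refine torsion_killed f hfree z (hcen z hzN htz) m hm ?_ H x k hk hx
    rw [hz, map_mul, map_inv, hfw, map_pow, hft]
    apply Multiplicative.toAdd.injective
    simp

/-- If the torsion of `A` is killed by `m`, then `ℤ/p` is not a direct summand of `A` when `p` is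
a prime not dividing `m`. -/
theorem no_summand {A : Type*} [CommGroup A] (m : ℕ)
    (h : ∀ (x : A) (k : ℕ), 0 < k → x ^ k = 1 → x ^ m = 1) (p : ℕ) (hp : p.Prime)
    (hpm : ¬ p ∣ m) (B : Type*) [AddCommGroup B] : ¬ Nonempty (Additive A ≃+ ZMod p × B) := by
  rintro ⟨e⟩
  set a : Additive A := e.symm ((1 : ZMod p), (0 : B)) with ha
  have h1 : p • a = 0 := by
    rw [ha, ← map_nsmul]
    have : p • ((1 : ZMod p), (0 : B)) = 0 := by
      ext
      · simp
      · simp
    rw [this, map_zero]
  have h2 : m • a = 0 := by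
    have := h (Additive.toMul a) p hp.pos h1
    exact this
  have h3 : m • ((1 : ZMod p), (0 : B)) = 0 := by
    have h4 : e (m • a) = 0 := by rw [h2, map_zero]
    rw [map_nsmul, ha, AddEquiv.apply_symm_apply] at h4
    exact h4
  have h5 : ((m : ℕ) : ZMod p) = 0 := by
    have := congrArg Prod.fst h3
    simpa using this
  rw [ZMod.natCast_eq_zero_iff] at h5
  exact hpm h5

/-! ### The explicit example -/

/-- `x ↦ x⁻¹, y ↦ z, z ↦ z⁻¹ y⁻¹`. -/
noncomputable def phiHom : FreeGroup (Fin 3) →* FreeGroup (Fin 3) :=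
  FreeGroup.lift ![(FreeGroup.of 0)⁻¹, FreeGroup.of 2, (FreeGroup.of 2)⁻¹ * (FreeGroup.of 1)⁻¹]

/-- `x ↦ x⁻¹, y ↦ z⁻¹ y⁻¹, z ↦ y`. -/
noncomputable def psiHom : FreeGroup (Fin 3) →* FreeGroup (Fin 3) :=
  FreeGroup.lift ![(FreeGroup.of 0)⁻¹, (FreeGroup.of 2)⁻¹ * (FreeGroup.of 1)⁻¹, FreeGroup.of 1]

@[simp] theorem phi0 : phiHom (FreeGroup.of 0) = (FreeGroup.of 0)⁻¹ := by simp [phiHom]
@[simp] theorem phi1 : phiHom (FreeGroup.of 1) = FreeGroup.of 2 := by simp [phiHom]
@[simp] theorem phi2 : phiHom (FreeGroup.of 2) = (FreeGroup.of 2)⁻¹ * (FreeGroup.of 1)⁻¹ := by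
  simp [phiHom]
@[simp] theorem psi0 : psiHom (FreeGroup.of 0) = (FreeGroup.of 0)⁻¹ := by simp [psiHom]
@[simp] theorem psi1 : psiHom (FreeGroup.of 1) = (FreeGroup.of 2)⁻¹ * (FreeGroup.of 1)⁻¹ := by
  simp [psiHom]
@[simp] theorem psi2 : psiHom (FreeGroup.of 2) = FreeGroup.of 1 := by simp [psiHom]

/-- The automorphism of order six. -/
noncomputable def phi : MulAut (FreeGroup (Fin 3)) :=
  MonoidHom.toMulEquiv phiHom psiHom
    (by
      apply FreeGroup.ext_hom
      intro i
      fin_cases i <;> simp)
    (by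
      apply FreeGroup.ext_hom
      intro i
      fin_cases i <;> simp)

theorem phi_apply (x : FreeGroup (Fin 3)) : phi x = phiHom x := rfl

theorem phi_pow_six : phi ^ 6 = 1 := by
  have h : ∀ i : Fin 3, (phi ^ 6) (FreeGroup.of i) = FreeGroup.of i := by
    intro i
    have h6 : (phi ^ 6) (FreeGroup.of i) =
        phiHom (phiHom (phiHom (phiHom (phiHom (phiHom (FreeGroup.of i)))))) := rfl
    rw [h6]
    fin_cases i <;> simp
  apply MulEquiv.ext
  intro x
  have h2 : ((phi ^ 6 : MulAut (FreeGroup (Fin 3))) : FreeGroup (Fin 3) →* FreeGroup (Fin 3)) =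
      MonoidHom.id _ := by
    apply FreeGroup.ext_hom
    intro i
    exact h i
  exact DFunLike.congr_fun h2 x

/-- The group `F₃ ⋊ ℤ`. -/
abbrev GG : Type := FreeGroup (Fin 3) ⋊[zpowersHom (MulAut (FreeGroup (Fin 3))) phi]
  Multiplicative ℤ

/-- The stable letter. -/
noncomputable def tt : GG := SemidirectProduct.inr (Multiplicative.ofAdd 1)

theorem tt_pow (k : ℕ) : tt ^ k = SemidirectProduct.inr (Multiplicative.ofAdd (k : ℤ)) := by
  rw [tt, ← map_pow, ← ofAdd_nsmul]
  simp

theorem tt_conj (k : ℕ) (x : FreeGroup (Fin 3)) :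
    tt ^ k * SemidirectProduct.inl x * (tt ^ k)⁻¹ = SemidirectProduct.inl ((phi ^ k) x) := by
  rw [tt_pow, ← map_inv, ← SemidirectProduct.inl_aut]
  congr 1

theorem center_crit (g : GG) (h1 : ∀ x : FreeGroup (Fin 3),
    SemidirectProduct.inl x * g = g * SemidirectProduct.inl x) (h2 : tt * g = g * tt) :
    g ∈ Subgroup.center GG := by
  rw [Subgroup.mem_center_iff]
  intro u
  have h3 : (SemidirectProduct.inr u.right : GG) = tt ^ (Multiplicative.toAdd u.right) := by
    rw [tt, ← map_zpow, ← ofAdd_zsmul]
    simp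
  have h4 : u = SemidirectProduct.inl u.left * tt ^ (Multiplicative.toAdd u.right) := by
    rw [← h3, SemidirectProduct.inl_left_mul_inr_right]
  have h5 : tt ^ (Multiplicative.toAdd u.right) * g = g * tt ^ (Multiplicative.toAdd u.right) :=
    (show Commute tt g from h2).zpow_left _
  rw [h4, mul_assoc, h5, ← mul_assoc, h1, mul_assoc]

theorem tt6 : tt ^ 6 ∈ Subgroup.center GG := by
  apply center_crit
  · intro x
    have h := tt_conj 6 x
    rw [phi_pow_six, MulAut.one_apply] at h
    calc SemidirectProduct.inl x * tt ^ 6 =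
        (tt ^ 6 * SemidirectProduct.inl x * (tt ^ 6)⁻¹) * tt ^ 6 := by rw [h]
      _ = tt ^ 6 * SemidirectProduct.inl x := by group
  · rw [← pow_succ, ← pow_succ']

/-- exponent sum of a basis letter -/
noncomputable def expo (i : Fin 3) : FreeGroup (Fin 3) →* Multiplicative ℤ :=
  FreeGroup.lift (fun j => if j = i then Multiplicative.ofAdd 1 else 1)

theorem xcomm : (SemidirectProduct.inl (FreeGroup.of 0) : GG) * tt ^ 2 =
    tt ^ 2 * SemidirectProduct.inl (FreeGroup.of 0) := by
  have h := tt_conj 2 (FreeGroup.of 0)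
  have h4 : (phi ^ 2) (FreeGroup.of 0) = phiHom (phiHom (FreeGroup.of 0)) := rfl
  rw [h4, phi0, map_inv, phi0, inv_inv] at h
  calc SemidirectProduct.inl (FreeGroup.of 0) * tt ^ 2 =
      (tt ^ 2 * SemidirectProduct.inl (FreeGroup.of 0) * (tt ^ 2)⁻¹) * tt ^ 2 := by rw [h]
    _ = tt ^ 2 * SemidirectProduct.inl (FreeGroup.of 0) := by group

theorem ypow (k : ℕ) (hk : 0 < k) :
    (SemidirectProduct.inl (FreeGroup.of 1) : GG) ^ k * tt ^ 2 ≠
      tt ^ 2 * (SemidirectProduct.inl (FreeGroup.of 1) : GG) ^ k := by
  intro h1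
  have h2 := tt_conj 2 (FreeGroup.of 1 ^ k)
  rw [map_pow SemidirectProduct.inl, ← h1, mul_inv_cancel_right, ← map_pow] at h2
  have h3 := SemidirectProduct.inl_injective h2
  have h4 : (phi ^ 2) (FreeGroup.of 1 ^ k) = phiHom (phiHom (FreeGroup.of 1 ^ k)) := rfl
  rw [h4] at h3
  have h5 := congrArg (expo 1) h3
  simp [expo] at h5
  have h6 := congrArg Multiplicative.toAdd h5
  simp at h6
  omega

theorem reduce_pos {α : Type*} [DecidableEq α] (L : List (α × Bool))
    (h : ∀ p ∈ L, p.2 = true) : FreeGroup.reduce L = L := by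
  induction L with
  | nil => rfl
  | cons p L ih =>
    have ih' := ih (fun q hq => h q (List.mem_cons_of_mem _ hq))
    rw [FreeGroup.reduce.cons, ih']
    cases L with
    | nil => rfl
    | cons q L =>
      have h1 := h p (by simp)
      have h2 := h q (by simp)
      simp [h1, h2]

theorem pow_not_comm (k j : ℕ) (hk : 0 < k) (hj : 0 < j) :
    (FreeGroup.of (0 : Fin 3)) ^ k * (FreeGroup.of 1) ^ j ≠
      (FreeGroup.of 1) ^ j * (FreeGroup.of 0) ^ k := by
  intro h
  have h1 := congrArg FreeGroup.toWord h
  rw [FreeGroup.toWord_mul, FreeGroup.toWord_mul, FreeGroup.toWord_of_pow,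
    FreeGroup.toWord_of_pow, reduce_pos, reduce_pos] at h1
  · obtain ⟨k, rfl⟩ : ∃ k', k = k' + 1 := ⟨k - 1, by omega⟩
    obtain ⟨j, rfl⟩ : ∃ j', j = j' + 1 := ⟨j - 1, by omega⟩
    rw [List.replicate_succ, List.replicate_succ, List.cons_append, List.cons_append] at h1
    simp at h1
  · intro p hp
    rcases List.mem_append.mp hp with hp | hp <;> rw [List.eq_of_mem_replicate hp]
  · intro p hp
    rcases List.mem_append.mp hp with hp | hp <;> rw [List.eq_of_mem_replicate hp]

theorem xypow (k j : ℕ) (hk : 0 < k) (hj : 0 < j) :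
    (SemidirectProduct.inl (FreeGroup.of 0) : GG) ^ k *
        (SemidirectProduct.inl (FreeGroup.of 1) : GG) ^ j ≠
      (SemidirectProduct.inl (FreeGroup.of 1) : GG) ^ j *
        (SemidirectProduct.inl (FreeGroup.of 0) : GG) ^ k := by
  intro h
  rw [← map_pow, ← map_pow, ← map_mul, ← map_mul] at h
  exact pow_not_comm k j hk hj (SemidirectProduct.inl_injective h)

/-- (1) Let `G` be (free of finite rank `n`)-by-`ℤ` with free kernel `N`, let `t` map to a
generator of `ℤ`, and suppose that the monodromy `x ↦ t x t⁻¹` of `N` has finite order in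
`Out(N)`: its `m`-th power (`m ≥ 1`) is conjugation by some `w ∈ N`.  Then for every subgroup `H`
of `G` (of finite index or not) and every prime `p` not dividing `m`, the group `ℤ/p` is not
isomorphic to a direct summand of `H^ab`.

(2) There is such a group with `N` free of rank three, `m = 6`, for which, moreover, there are
elements `s, c, d` such that `s⁶` is central, `c` commutes with `s²`, no positive power of `d`
commutes with `s²`, and no positive power of `c` commutes with any positive power of `d`. For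
this group `ℤ/p` is a direct summand of `H^ab` for no prime `p ≥ 5` and no subgroup `H`. -/
theorem result :
    (∀ (G : Type) [Group G] (N : Subgroup G) [N.Normal] (n : ℕ),
      Nonempty (↥N ≃* FreeGroup (Fin n)) →
      ∀ (e : G ⧸ N ≃* Multiplicative ℤ) (t : G), e (t : G ⧸ N) = Multiplicative.ofAdd 1 →
      ∀ (m : ℕ), 0 < m → ∀ w ∈ N, (∀ x ∈ N, t ^ m * x * (t ^ m)⁻¹ = w * x * w⁻¹) →
      ∀ (H : Subgroup G) (p : ℕ), p.Prime → ¬ p ∣ m →
        ¬ ∃ (B : Type) (_ : AddCommGroup B),
          Nonempty (Additive (Abelianization ↥H) ≃+ ZMod p × B)) ∧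
    (∃ (G : Type) (_ : Group G) (N : Subgroup G) (_ : N.Normal),
      Nonempty (↥N ≃* FreeGroup (Fin 3)) ∧
      Nonempty (G ⧸ N ≃* Multiplicative ℤ) ∧
      (∃ s c d : G, s ^ 6 ∈ Subgroup.center G ∧ c * s ^ 2 = s ^ 2 * c ∧
        (∀ k : ℕ, 0 < k → d ^ k * s ^ 2 ≠ s ^ 2 * d ^ k) ∧
        (∀ k j : ℕ, 0 < k → 0 < j → c ^ k * d ^ j ≠ d ^ j * c ^ k)) ∧
      ∀ (H : Subgroup G) (p : ℕ), p.Prime → 5 ≤ p →
        ¬ ∃ (B : Type) (_ : AddCommGroup B),
          Nonempty (Additive (Abelianization ↥H) ≃+ ZMod p × B)) := by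
  constructor
  · intro G _ N _ n hN e t ht m hm w hw hconj H p hp hpm
    obtain ⟨eN⟩ := hN
    rintro ⟨B, _, hB⟩
    exact no_summand m (fun x k hk hx => monodromy_torsion N n eN e t ht m hm w hw hconj H x k hk hx)
      p hp hpm B hB
  · let f : GG →* Multiplicative ℤ := SemidirectProduct.rightHom
    have eN : FreeGroup (Fin 3) ≃* ↥f.ker :=
      (MonoidHom.ofInjective (SemidirectProduct.inl_injective
        (φ := zpowersHom (MulAut (FreeGroup (Fin 3))) phi))).trans
        (MulEquiv.subgroupCongr SemidirectProduct.range_inl_eq_ker_rightHom)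
    refine ⟨GG, inferInstance, f.ker, inferInstance, ⟨eN.symm⟩,
      ⟨QuotientGroup.quotientKerEquivOfSurjective f SemidirectProduct.rightHom_surjective⟩,
      ⟨tt, SemidirectProduct.inl (FreeGroup.of 0), SemidirectProduct.inl (FreeGroup.of 1),
        tt6, xcomm, ypow, xypow⟩, ?_⟩
    intro H p hp h5
    rintro ⟨B, _, hB⟩
    have hfree : IsFreeGroup f.ker := IsFreeGroup.ofMulEquiv eN
    have hft : f (tt ^ 6) = Multiplicative.ofAdd ((6 : ℕ) : ℤ) := by
      rw [tt_pow]; rfl
    refine no_summand 6 (fun x k hk hx =>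
      torsion_killed f hfree (tt ^ 6) tt6 6 (by norm_num) hft H x k hk hx) p hp ?_ B hB
    intro hdvd
    have h6 : p ∣ 2 * 3 := by simpa using hdvd
    rcases (Nat.Prime.dvd_mul hp).mp h6 with h | h
    · have := Nat.le_of_dvd (by norm_num) h; omega
    · have := Nat.le_of_dvd (by norm_num) h; omega

end Pool.Agent.Results.MP_a8e993_al.FiniteOrderMonodromy
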